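import Pool.Agent.H998.LT.Defs

set_option autoImplicit false

/-!
# Sums over one row (LT998 ROW, for helper998)
-/

open Pool.Agent.H998.LT

namespace Pool.Agent.H187.LT

noncomputable section

/-- the comparison series converges -/
lemma summable_cmp (C : ℝ) : Summable fun k : ℤ => C / (1 + 4 / 81 * (k : ℝ) ^ 2) := by
  have h1 : Summable fun k : ℤ => 1 / (k : ℝ) ^ 2 :=
    Real.summable_one_div_int_pow.mpr (by norm_num)
  have h2 : Summable fun k : ℤ => 1 / (1 + 4 / 81 * (k : ℝ) ^ 2) := by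
    refine Summable.of_norm_bounded_eventually (h1.mul_left (81 / 4)) ?_
    have h3 : ∀ᶠ k : ℤ in Filter.cofinite, k ≠ 0 := by
      have : ({0} : Set ℤ).Finite := Set.finite_singleton 0
      exact this.compl_mem_cofinite
    filter_upwards [h3] with k hk
    have hk' : (0 : ℝ) < (k : ℝ) ^ 2 := by
      have : (k : ℝ) ≠ 0 := by exact_mod_cast hk
      positivity
    have hpos : (0 : ℝ) < 1 + 4 / 81 * (k : ℝ) ^ 2 := by positivity
    rw [Real.norm_of_nonneg (by positivity)]
    rw [mul_one_div, div_le_div_iff₀ hpos hk']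
    nlinarith
  have h4 := h2.mul_left C
  refine h4.congr ?_
  intro k
  rw [mul_one_div]

lemma e_zero : e 0 = 1 := by
  unfold e
  simp

/-- the lower bound for the distances -/
lemma dist_bound (w u : ℝ) (hw1 : 1 / 2 ≤ w) (hw2 : w ≤ 9 / 4) (k : ℤ) :
    4 / 81 * (k : ℝ) ^ 2 ≤ (u - ((k + round (u * w) : ℤ) : ℝ) / w) ^ 2 := by
  have hw0 : 0 < w := by linarith
  have h1 : |u * w - round (u * w)| ≤ 1 / 2 := abs_sub_round (u * w)
  set a : ℝ := u * w - round (u * w) with ha
  have h2 : u - ((k + round (u * w) : ℤ) : ℝ) / w = (a - k) / w := by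
    rw [ha]
    push_cast
    field_simp
    ring
  rw [h2, div_pow, le_div_iff₀ (by positivity)]
  have h3 : (k : ℝ) ^ 2 / 4 ≤ (a - k) ^ 2 := by
    rcases abs_le.mp h1 with ⟨h1a, h1b⟩
    rcases lt_trichotomy k 0 with hk | hk | hk
    · have hk' : (k : ℝ) ≤ -1 := by exact_mod_cast (by omega : k ≤ -1)
      nlinarith
    · rw [hk]
      push_cast
      nlinarith [sq_nonneg a]
    · have hk' : (1 : ℝ) ≤ k := by exact_mod_cast (by omega : 1 ≤ k)
      nlinarith
  have h4 : w ^ 2 ≤ 81 / 16 := by nlinarith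
  calc 4 / 81 * (k : ℝ) ^ 2 * w ^ 2 ≤ 4 / 81 * (k : ℝ) ^ 2 * (81 / 16) := by
        apply mul_le_mul_of_nonneg_left h4
        positivity
    _ = (k : ℝ) ^ 2 / 4 := by ring
    _ ≤ (a - k) ^ 2 := h3

theorem t_row : S_poisson → S_row := by
  intro hP h H C hN hH
  have hC : 0 ≤ C := by
    have := hN.bound 0
    have h1 : C / (1 + (0 : ℝ) ^ 2) = C := by norm_num
    rw [h1] at this
    exact le_trans (norm_nonneg _) this
  refine ⟨∑' k : ℤ, C / (1 + 4 / 81 * (k : ℝ) ^ 2), ?_⟩
  intro w hw1 hw2 u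
  have hw0 : 0 < w := by linarith
  have hwne : w ≠ 0 := ne_of_gt hw0
  -- the bound
  have hb : ∀ k : ℤ, |h (u - ((k + round (u * w) : ℤ) : ℝ) / w)|
      ≤ C / (1 + 4 / 81 * (k : ℝ) ^ 2) := by
    intro k
    have h1 := hN.bound (u - ((k + round (u * w) : ℤ) : ℝ) / w)
    have h2 := dist_bound w u hw1 hw2 k
    have h3 : ‖((h (u - ((k + round (u * w) : ℤ) : ℝ) / w) : ℝ) : ℂ)‖
        = |h (u - ((k + round (u * w) : ℤ) : ℝ) / w)| := by
      rw [Complex.norm_real, Real.norm_eq_abs]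
    rw [← h3]
    refine le_trans h1 ?_
    apply div_le_div_of_nonneg_left hC
    · positivity
    · linarith
  have hsum1 : Summable fun k : ℤ => |h (u - ((k + round (u * w) : ℤ) : ℝ) / w)| :=
    Summable.of_nonneg_of_le (fun k => abs_nonneg _) hb (summable_cmp C)
  have hsum : Summable fun k : ℤ => |h (u - (k : ℝ) / w)| := by
    have := (Equiv.addRight (round (u * w))).summable_iff
      (f := fun k : ℤ => |h (u - (k : ℝ) / w)|)
    exact this.mp hsum1
  have htsum : ∑' k : ℤ, |h (u - (k : ℝ) / w)|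
      = ∑' k : ℤ, |h (u - ((k + round (u * w) : ℤ) : ℝ) / w)| := by
    have := (Equiv.addRight (round (u * w))).tsum_eq (fun k : ℤ => |h (u - (k : ℝ) / w)|)
    exact this.symm
  refine ⟨?_, hsum, ?_⟩
  · -- Poisson
    have hT : (0 : ℝ) < 1 / w := by positivity
    obtain ⟨-, -, hp⟩ := hP _ _ C hN (1 / w) hT 0 0 u
    have hhs : Summable fun k : ℤ => h (u - (k : ℝ) / w) := hsum.of_abs
    have hl : ∑' n : ℤ, e (0 * (1 / w * n + 0)) * ((h (u - (1 / w * n + 0)) : ℝ) : ℂ)
        = ((∑' k : ℤ, h (u - (k : ℝ) / w) : ℝ) : ℂ) := by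
      rw [Complex.ofReal_tsum]
      apply tsum_congr
      intro n
      rw [zero_mul, e_zero, one_mul]
      have : u - (1 / w * (n : ℝ) + 0) = u - (n : ℝ) / w := by ring
      rw [this]
    have hr : ∑' k : ℤ, ((H (k / (1 / w) + 0) : ℝ) : ℂ) * e (-(k * 0 / (1 / w)))
        * e ((k / (1 / w) + 0) * u) = ((H 0 : ℝ) : ℂ) := by
      rw [tsum_eq_single 0]
      · simp [e_zero]
      · intro k hk
        have h1 : H ((k : ℝ) / (1 / w) + 0) = 0 := by
          apply hH
          have h2 : (k : ℝ) / (1 / w) + 0 = k * w := by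
            rw [add_zero, div_div_eq_mul_div, div_one]
          rw [h2, abs_mul, abs_of_pos hw0]
          have h3 : (1 : ℝ) ≤ |(k : ℝ)| := by
            have : (1 : ℤ) ≤ |k| := Int.one_le_abs hk
            exact_mod_cast this
          nlinarith
        rw [h1]
        simp
    have hp' : ((1 / w : ℝ) : ℂ) * ((∑' k : ℤ, h (u - (k : ℝ) / w) : ℝ) : ℂ)
        = ((H 0 : ℝ) : ℂ) := by
      rw [← hl, ← hr]
      exact hp
    have hp2 : (1 / w) * ∑' k : ℤ, h (u - (k : ℝ) / w) = H 0 := by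
      exact_mod_cast hp'
    have hp3 : ∑' k : ℤ, h (u - (k : ℝ) / w) = w * H 0 := by
      rw [← hp2]
      field_simp
    rw [← hp3]
    exact hhs.hasSum
  · rw [htsum]
    exact hsum1.tsum_le_tsum hb (summable_cmp C)

end

end Pool.Agent.H187.LT
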